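import Pool.Agent.H18.MT3

set_option autoImplicit false

namespace Pool.Agent.Results.MP_7b70e8_gt.Q1

open Set

variable {Z : Type} [TopologicalSpace Z]

/-- open cover not containing the whole space -/
def Cover (𝒰 : Set (Set Z)) : Prop := (∀ U ∈ 𝒰, IsOpen U) ∧ ⋃₀ 𝒰 = univ ∧ univ ∉ 𝒰

/-- open `ω`-cover -/
def Omega (𝒰 : Set (Set Z)) : Prop := Cover 𝒰 ∧ ∀ F : Set Z, F.Finite → ∃ U ∈ 𝒰, F ⊆ U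

/-- open `τ`-cover -/
def Tau (𝒰 : Set (Set Z)) : Prop := Cover 𝒰 ∧ (∀ x, {U | U ∈ 𝒰 ∧ x ∈ U}.Infinite) ∧
  ∀ x y, {U | U ∈ 𝒰 ∧ x ∈ U ∧ y ∉ U}.Finite ∨ {U | U ∈ 𝒰 ∧ y ∈ U ∧ x ∉ U}.Finite

/-- open `γ`-cover -/
def Gamma (𝒰 : Set (Set Z)) : Prop :=
  Cover 𝒰 ∧ 𝒰.Infinite ∧ ∀ x, {U | U ∈ 𝒰 ∧ x ∉ U}.Finite

/-- `Split(A, B)` -/
def Split (A B : Set (Set Z) → Prop) : Prop :=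
  ∀ 𝒰, A 𝒰 → ∃ 𝒱 𝒲 : Set (Set Z), 𝒱 ∪ 𝒲 = 𝒰 ∧ Disjoint 𝒱 𝒲 ∧
    (∃ 𝒱' ⊆ 𝒱, B 𝒱') ∧ ∃ 𝒲' ⊆ 𝒲, B 𝒲'

/-- Under CH there is a set of reals with `Split(Ω, T)` and without `Split(T, Γ)`. -/
theorem result : Cardinal.continuum.{0} = Cardinal.aleph 1 →
    ∃ X : Set ℝ, Split (Z := X) Omega Tau ∧ ¬ Split (Z := X) Tau Gamma := by
  intro hCH
  obtain ⟨X, φ, h⟩ := Pool.Agent.H18.MT.real hCH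
  refine ⟨X, fun 𝒰 hU => ?_, fun H => ?_⟩
  · obtain ⟨𝒱, v1, 𝒲, w1, d, v2, w2⟩ := h.split hU
    exact ⟨𝒱, 𝒰 \ 𝒱, union_diff_cancel v1, disjoint_sdiff_right, ⟨𝒱, le_rfl, v2⟩,
      𝒲, subset_diff.mpr ⟨w1, d.symm⟩, w2⟩
  · obtain ⟨𝒰, u1, u2⟩ := h.nogamma
    obtain ⟨𝒱, 𝒲, e, -, ⟨𝒟, d1, d2⟩, -⟩ := H 𝒰 u1
    obtain ⟨x, hx⟩ := u2 𝒟 (d1.trans (e ▸ subset_union_left)) d2.2.1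
    exact hx (d2.2.2 x)

end Pool.Agent.Results.MP_7b70e8_gt.Q1
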