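import Pool.Agent.H18.OT2

set_option autoImplicit false

namespace Pool.Agent.Results.MP_7b70e8_gt.Q2

open Set

variable {Z : Type} [TopologicalSpace Z]

/-- open cover not containing the whole space -/
def Cover (𝒰 : Set (Set Z)) : Prop := (∀ U ∈ 𝒰, IsOpen U) ∧ ⋃₀ 𝒰 = univ ∧ univ ∉ 𝒰

/-- open large cover -/
def Large (𝒰 : Set (Set Z)) : Prop := Cover 𝒰 ∧ ∀ x, {U | U ∈ 𝒰 ∧ x ∈ U}.Infinite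

/-- open `ω`-cover -/
def Omega (𝒰 : Set (Set Z)) : Prop := Cover 𝒰 ∧ ∀ F : Set Z, F.Finite → ∃ U ∈ 𝒰, F ⊆ U

/-- open `τ`-cover -/
def Tau (𝒰 : Set (Set Z)) : Prop := Cover 𝒰 ∧ (∀ x, {U | U ∈ 𝒰 ∧ x ∈ U}.Infinite) ∧
  ∀ x y, {U | U ∈ 𝒰 ∧ x ∈ U ∧ y ∉ U}.Finite ∨ {U | U ∈ 𝒰 ∧ y ∈ U ∧ x ∉ U}.Finite

/-- `Split(A, B)` -/
def Split (A B : Set (Set Z) → Prop) : Prop :=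
  ∀ 𝒰, A 𝒰 → ∃ 𝒱 𝒲 : Set (Set Z), 𝒱 ∪ 𝒲 = 𝒰 ∧ Disjoint 𝒱 𝒲 ∧
    (∃ 𝒱' ⊆ 𝒱, B 𝒱') ∧ ∃ 𝒲' ⊆ 𝒲, B 𝒲'

/-- `Split(Ω, T)` implies `Split(Λ, Λ)` for every set of reals. -/
theorem result (X : Set ℝ) : Split (Z := X) Omega Tau → Split (Z := X) Large Large := by
  intro H 𝒰 hU
  obtain ⟨𝒱, v1, 𝒲, w1, d, v2, w2⟩ := Pool.Agent.H18.OT.splitL (X := X) (fun 𝒰 hU => by
    obtain ⟨𝒱, 𝒲, e, -, ⟨𝒟, d1, d2⟩, -⟩ := H 𝒰 hU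
    exact ⟨𝒟, d1.trans (e ▸ subset_union_left), d2⟩) 𝒰 hU.1.1 hU.2
  have l : ∀ 𝒟 ⊆ 𝒰, (∀ x, {U | U ∈ 𝒟 ∧ x ∈ U}.Infinite) → Large 𝒟 := fun 𝒟 d1 d2 =>
    ⟨⟨fun U t => hU.1.1 U (d1 t), eq_univ_of_forall fun x => by
      obtain ⟨U, t⟩ := (d2 x).nonempty
      exact ⟨U, t⟩, fun t => hU.1.2.2 (d1 t)⟩, d2⟩
  exact ⟨𝒱, 𝒰 \ 𝒱, union_diff_cancel v1, disjoint_sdiff_right, ⟨𝒱, le_rfl, l 𝒱 v1 v2⟩,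
    𝒲, subset_diff.mpr ⟨w1, d.symm⟩, l 𝒲 w1 w2⟩

end Pool.Agent.Results.MP_7b70e8_gt.Q2
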